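import Pool.Agent.Helper17.SA.St3

/-!
# Project SA (MP_21f9f3), module TRB: p-subgroups against even permutations
-/

set_option autoImplicit false

namespace Pool.Agent.Helper76.SA

open Equiv Pool.Agent.Helper17.SA

/-- A Sylow `2`-subgroup of `Perm (Fin m)` contains an odd permutation. -/
lemma odd_mem (m : ℕ) (hm : 2 ≤ m) (P : Sylow 2 (Perm (Fin m))) :
    ∃ g ∈ (P : Subgroup (Perm (Fin m))), Perm.sign g = -1 := by
  have : Fact (Nat.Prime 2) := ⟨Nat.prime_two⟩
  set s : Perm (Fin m) := Equiv.swap (⟨0, by omega⟩ : Fin m) ⟨1, by omega⟩ with hs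
  have hne : (⟨0, by omega⟩ : Fin m) ≠ ⟨1, by omega⟩ := by
    intro h
    simp at h
  have hsign : Perm.sign s = -1 := Perm.sign_swap hne
  have hs2 : s * s = 1 := Equiv.swap_mul_self _ _
  have hpg : IsPGroup 2 (Subgroup.zpowers s) := by
    apply IsPGroup.of_card (n := 1)
    rw [Nat.card_zpowers, pow_one]
    exact orderOf_eq_prime (by rw [pow_two]; exact hs2) (by
      intro h
      rw [h, Perm.sign_one] at hsign
      exact absurd hsign (by decide))
  obtain ⟨P', hP'⟩ := hpg.exists_le_sylow
  obtain ⟨c, hc⟩ := MulAction.exists_smul_eq (Perm (Fin m)) P' P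
  refine ⟨c * s * c⁻¹, ?_, ?_⟩
  · have h1 : s ∈ (P' : Subgroup (Perm (Fin m))) := hP' (Subgroup.mem_zpowers s)
    rw [← hc, Sylow.coe_subgroup_smul]
    have h2 := Subgroup.smul_mem_pointwise_smul s (MulAut.conj c) (P' : Subgroup (Perm (Fin m))) h1
    simpa using h2
  · rw [Perm.sign_mul, Perm.sign_mul, Perm.sign_inv, hsign]
    rcases Int.units_eq_one_or (Perm.sign c) with h | h <;> rw [h] <;> decide

/-- For odd `p` every element of a `p`-group of permutations is even. -/
lemma even_of_odd (m p : ℕ) (hp : p.Prime) (hp2 : p ≠ 2) (P : Subgroup (Perm (Fin m)))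
    (hP : IsPGroup p P) : P ≤ alternatingGroup (Fin m) := by
  intro y hy
  rw [Perm.mem_alternatingGroup]
  obtain ⟨k, hk⟩ := hP ⟨y, hy⟩
  have hk' : y ^ p ^ k = 1 := by
    have := congrArg Subtype.val hk
    simpa using this
  have hodd : Odd (p ^ k) := (hp.odd_of_ne_two hp2).pow
  rcases Int.units_eq_one_or (Perm.sign y) with h | h
  · exact h
  · exfalso
    have h1 : Perm.sign (y ^ p ^ k) = 1 := by rw [hk', Perm.sign_one]
    rw [map_pow, h, hodd.neg_one_pow] at h1
    exact absurd h1 (by decide)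

/-- Some odd permutation normalizes a Sylow subgroup. -/
lemma odd_norm (m p : ℕ) (hm : 2 ≤ m) (hp : p.Prime) (P : Sylow p (Perm (Fin m))) :
    ∃ g : Perm (Fin m), (∀ h, h ∈ (P : Subgroup (Perm (Fin m))) ↔
      g * h * g⁻¹ ∈ (P : Subgroup (Perm (Fin m)))) ∧ Perm.sign g = -1 := by
  have : Fact p.Prime := ⟨hp⟩
  by_cases hp2 : p = 2
  · subst hp2
    obtain ⟨g, hg, hs⟩ := odd_mem m hm P
    refine ⟨g, fun h => ⟨fun hh => mul_mem (mul_mem hg hh) (inv_mem hg), fun hh => ?_⟩, hs⟩
    have h1 : h = g⁻¹ * (g * h * g⁻¹) * g := by group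
    rw [h1]
    exact mul_mem (mul_mem (inv_mem hg) hh) hg
  · have hle := even_of_odd m p hp hp2 (P : Subgroup (Perm (Fin m))) P.isPGroup'
    have hfr := Sylow.normalizer_sup_eq_top (P.subtype hle)
    have hmap : ((P.subtype hle : Sylow p (alternatingGroup (Fin m))) :
        Subgroup (alternatingGroup (Fin m))).map (alternatingGroup (Fin m)).subtype =
        (P : Subgroup (Perm (Fin m))) := by
      rw [Sylow.coe_subtype, Subgroup.subgroupOf_map_subtype, inf_eq_left]
      exact hle
    rw [hmap] at hfr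
    by_contra hcon
    push Not at hcon
    have hle2 : (⊤ : Subgroup (Perm (Fin m))) ≤ alternatingGroup (Fin m) := by
      rw [← hfr]
      refine sup_le ?_ le_rfl
      intro g hg
      have h1 := hcon g (Subgroup.mem_normalizer_iff.1 hg)
      rw [Perm.mem_alternatingGroup]
      rcases Int.units_eq_one_or (Perm.sign g) with h | h
      · exact h
      · exact absurd h h1
    have h2 : Equiv.swap (⟨0, by omega⟩ : Fin m) ⟨1, by omega⟩ ∈ alternatingGroup (Fin m) :=
      hle2 (Subgroup.mem_top _)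
    rw [Perm.mem_alternatingGroup, Perm.sign_swap] at h2
    · exact absurd h2 (by decide)
    · intro h
      simp at h

/-- Pairing even elements with odd ones. -/
lemma pairing (m : ℕ) (A B : Perm (Fin m) → Prop) (g : Perm (Fin m)) (hs : Perm.sign g = -1)
    (h1 : ∀ x, x ∈ alternatingGroup (Fin m) → A x → B x) (h2 : ∀ x, B x → B (x * g)) :
    2 * Nat.card {x : Perm (Fin m) // x ∈ alternatingGroup (Fin m) ∧ A x} ≤
      Nat.card {x : Perm (Fin m) // B x} := by
  classical
  let F : Bool × {x : Perm (Fin m) // x ∈ alternatingGroup (Fin m) ∧ A x} →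
      {x : Perm (Fin m) // B x} :=
    fun q => if q.1 then ⟨(q.2.1 : Perm (Fin m)) * g, h2 _ (h1 _ q.2.2.1 q.2.2.2)⟩
      else ⟨(q.2.1 : Perm (Fin m)), h1 _ q.2.2.1 q.2.2.2⟩
  have hF : Function.Injective F := by
    rintro ⟨b, x⟩ ⟨c, y⟩ h
    have hx := (Perm.mem_alternatingGroup).1 x.2.1
    have hy := (Perm.mem_alternatingGroup).1 y.2.1
    cases b <;> cases c
    · simp only [F, Bool.false_eq_true, if_false, Subtype.mk.injEq] at h
      rw [Prod.mk.injEq]
      exact ⟨rfl, Subtype.ext h⟩
    · exfalso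
      simp only [F, Bool.false_eq_true, if_false, if_true, Subtype.mk.injEq] at h
      have h2 := congrArg Perm.sign h
      rw [Perm.sign_mul, hx, hy, hs] at h2
      exact absurd h2 (by decide)
    · exfalso
      simp only [F, Bool.false_eq_true, if_false, if_true, Subtype.mk.injEq] at h
      have h2 := congrArg Perm.sign h
      rw [Perm.sign_mul, hx, hy, hs] at h2
      exact absurd h2 (by decide)
    · simp only [F, if_true, Subtype.mk.injEq] at h
      rw [Prod.mk.injEq]
      exact ⟨rfl, Subtype.ext (mul_right_cancel h)⟩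
  have hcard := Nat.card_le_card_of_injective F hF
  rw [Nat.card_prod] at hcard
  have h3 : Nat.card Bool = 2 := by simp
  rw [h3] at hcard
  exact hcard

theorem pTRB : StTRB := by
  intro m p H hm hp hH
  have : Fact p.Prime := ⟨hp⟩
  obtain ⟨P, hP⟩ := hH.exists_le_sylow
  refine ⟨P, hP, ?_, ?_⟩
  · obtain ⟨g, hg, hs⟩ := odd_norm m p hm hp P
    refine pairing m (Bad H) (Bad (P : Subgroup (Perm (Fin m)))) g hs ?_ ?_
    · rintro x _ ⟨y, hy, hy1, hxy⟩
      exact ⟨y, hP hy, hy1, hP hxy⟩
    · rintro x ⟨y, hy, hy1, hxy⟩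
      refine ⟨g⁻¹ * y * g, ?_, ?_, ?_⟩
      · rw [hg]
        have : g * (g⁻¹ * y * g) * g⁻¹ = y := by group
        rw [this]
        exact hy
      · intro h
        apply hy1
        have : y = g * (g⁻¹ * y * g) * g⁻¹ := by group
        rw [this, h]
        group
      · have : x * g * (g⁻¹ * y * g) * (x * g)⁻¹ = x * y * x⁻¹ := by group
        rw [this]
        exact hxy
  · have hHP : Nat.card H ≤ Nat.card (P : Subgroup (Perm (Fin m))) :=
      Nat.card_le_card_of_injective (Subgroup.inclusion hP) (Subgroup.inclusion_injective hP)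
    have hHA : Nat.card {t : Perm (Fin m) // t ∈ H ∧ t ∈ alternatingGroup (Fin m)} ≤
        Nat.card {t : Perm (Fin m) // t ∈ alternatingGroup (Fin m) ∧
          t ∈ (P : Subgroup (Perm (Fin m)))} := by
      refine Nat.card_le_card_of_injective (fun t => ⟨t.1, t.2.2, hP t.2.1⟩) ?_
      intro a b hab
      simp only [Subtype.mk.injEq] at hab
      exact Subtype.ext hab
    by_cases hp2 : p = 2
    · subst hp2
      obtain ⟨g, hg, hs⟩ := odd_mem m hm P
      have h1 := pairing m (fun t => t ∈ (P : Subgroup (Perm (Fin m))))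
        (fun t => t ∈ (P : Subgroup (Perm (Fin m)))) g hs (fun x _ h => h)
        (fun x h => mul_mem h hg)
      have h2 : Nat.card {x : Perm (Fin m) // x ∈ (P : Subgroup (Perm (Fin m)))} =
        Nat.card (P : Subgroup (Perm (Fin m))) := rfl
      rw [h2] at h1
      have hk : kap 2 = 2 := by simp [kap]
      rw [hk]
      nlinarith [Nat.mul_le_mul hHP (le_trans (Nat.mul_le_mul_left 2 hHA) h1)]
    · have hk : kap p = 1 := by simp [kap, hp2]
      rw [hk, one_mul, pow_two]
      refine Nat.mul_le_mul hHP (le_trans hHA ?_)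
      refine Nat.card_le_card_of_injective (fun t => ⟨t.1, t.2.2⟩) ?_
      intro a b hab
      simp only [Subtype.mk.injEq] at hab
      exact Subtype.ext hab

end Pool.Agent.Helper76.SA
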